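import Mathlib

/-!
# Primeness of LSS ideals of bipartite graphs at `d = m - 1`: the characterization fails for `m ≥ 5`

Let `d = m - 1 ≥ 4` and let `G` be the complete bipartite graph `K_{d,d}` minus a perfect matching,
with vectors `a_1, …, a_d` and `b_1, …, b_d` at its vertices. It contains no `K_{a,b}` with
`a + b ≥ d + 1`. Its LSS ideal is the ideal generated by the off-diagonal entries of `A Bᵀ`. Modulo
this ideal `det (A) p_{ij}(B) = D_i D_j Δ_{ij}(A)`, where `p_{ij}` is a `2 × 2` minor of the rows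
`b_i, b_j` and `Δ_{ij}(A)` the complementary minor of `A`. Hence
`det (A)² (p_{12} p_{34} Δ_{13} Δ_{24} - p_{13} p_{24} Δ_{12} Δ_{34})` lies in the ideal, but none of
its factors does.
-/

set_option autoImplicit false

namespace Pool.Agent.Results.MP_024e1e_ag.FailsFromFive

open MvPolynomial Matrix

/-- The Lovász–Saks–Schrijver ideal `L_G(d)` of the graph `G` over the field `k`: it is generated
by the polynomials `∑ j, y_{i,j} y_{l,j}` for the edges `{i, l}` of `G`. -/
noncomputable def LSS (k : Type*) [Field k] {V : Type*} (G : SimpleGraph V) (d : ℕ) :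
    Ideal (MvPolynomial (V × Fin d) k) :=
  Ideal.span {f | ∃ i l : V, G.Adj i l ∧ f = ∑ j : Fin d, X (i, j) * X (l, j)}

section algebra

variable {R : Type*} [CommRing R] {ι : Type*} [Fintype ι] [DecidableEq ι]

/-- a `2 × 2` minor of the rows `i`, `j` of `B` -/
def pp (c₀ c₁ : ι) (B : Matrix ι ι R) (i j : ι) : R :=
  (((1 : Matrix ι ι R).updateCol c₀ (B i)).updateCol c₁ (B j)).det

/-- the complementary minor of `A` -/
def dd (c₀ c₁ : ι) (A : Matrix ι ι R) (i j : ι) : R :=
  ((A.updateCol c₀ (Pi.single i 1)).updateCol c₁ (Pi.single j 1)).det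

lemma key (c₀ c₁ : ι) (hc : c₀ ≠ c₁) (A B : Matrix ι ι R)
    (h : ∀ i j, i ≠ j → ∑ l, A i l * B j l = 0) (i j : ι) :
    A.det * pp c₀ c₁ B i j =
      (∑ l, A i l * B i l) * (∑ l, A j l * B j l) * dd c₀ c₁ A i j := by
  unfold pp dd
  rw [← det_mul]
  have h1 : A * (((1 : Matrix ι ι R).updateCol c₀ (B i)).updateCol c₁ (B j)) =
      (A.updateCol c₀ ((∑ l, A i l * B i l) • Pi.single i 1)).updateCol c₁
        ((∑ l, A j l * B j l) • Pi.single j 1) := by
    ext a b
    rw [mul_apply]
    by_cases hb1 : b = c₁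
    · subst hb1
      simp only [updateCol_self, Pi.smul_apply, smul_eq_mul]
      by_cases haj : a = j
      · subst haj; simp
      · rw [h a j haj, Pi.single_eq_of_ne haj, mul_zero]
    · simp only [updateCol_ne hb1]
      by_cases hb0 : b = c₀
      · subst hb0
        simp only [updateCol_self, Pi.smul_apply, smul_eq_mul]
        by_cases hai : a = i
        · subst hai; simp
        · rw [h a i hai, Pi.single_eq_of_ne hai, mul_zero]
      · simp only [updateCol_ne hb0]
        rw [← mul_apply, Matrix.mul_one]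
  rw [h1, det_updateCol_smul, updateCol_comm _ hc, det_updateCol_smul, updateCol_comm _ hc.symm]
  ring

/-- the second factor -/
def gg (c₀ c₁ c₂ c₃ : ι) (A B : Matrix ι ι R) : R :=
  pp c₀ c₁ B c₀ c₁ * pp c₀ c₁ B c₂ c₃ * (dd c₀ c₁ A c₀ c₂ * dd c₀ c₁ A c₁ c₃) -
    pp c₀ c₁ B c₀ c₂ * pp c₀ c₁ B c₁ c₃ * (dd c₀ c₁ A c₀ c₁ * dd c₀ c₁ A c₂ c₃)

lemma key2 (c₀ c₁ c₂ c₃ : ι) (hc : c₀ ≠ c₁) (A B : Matrix ι ι R)
    (h : ∀ i j, i ≠ j → ∑ l, A i l * B j l = 0) :
    A.det * A.det * gg c₀ c₁ c₂ c₃ A B = 0 := by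
  have h1 := key c₀ c₁ hc A B h
  have e : A.det * A.det * gg c₀ c₁ c₂ c₃ A B =
      (A.det * pp c₀ c₁ B c₀ c₁) * (A.det * pp c₀ c₁ B c₂ c₃) *
        (dd c₀ c₁ A c₀ c₂ * dd c₀ c₁ A c₁ c₃) -
      (A.det * pp c₀ c₁ B c₀ c₂) * (A.det * pp c₀ c₁ B c₁ c₃) *
        (dd c₀ c₁ A c₀ c₁ * dd c₀ c₁ A c₂ c₃) := by
    unfold gg; ring
  rw [e, h1, h1, h1, h1]
  ring

variable {S : Type*} [CommRing S] (f : R →+* S)

lemma map_pp (c₀ c₁ : ι) (B : Matrix ι ι R) (i j : ι) :
    f (pp c₀ c₁ B i j) = pp c₀ c₁ (B.map f) i j := by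
  unfold pp
  rw [RingHom.map_det, RingHom.mapMatrix_apply, map_updateCol, map_updateCol]
  congr 3
  exact Matrix.map_one f (map_zero f) (map_one f)

lemma map_dd (c₀ c₁ : ι) (A : Matrix ι ι R) (i j : ι) :
    f (dd c₀ c₁ A i j) = dd c₀ c₁ (A.map f) i j := by
  unfold dd
  rw [RingHom.map_det, RingHom.mapMatrix_apply, map_updateCol, map_updateCol]
  congr 3
  · funext a
    by_cases h : a = i
    · subst h; simp
    · simp [Pi.single_eq_of_ne h]
  · funext a
    by_cases h : a = j
    · subst h; simp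
    · simp [Pi.single_eq_of_ne h]

lemma map_gg (c₀ c₁ c₂ c₃ : ι) (A B : Matrix ι ι R) :
    f (gg c₀ c₁ c₂ c₃ A B) = gg c₀ c₁ c₂ c₃ (A.map f) (B.map f) := by
  unfold gg
  simp only [map_sub, map_mul, map_pp, map_dd]

end algebra

/-! ### A point with `g ≠ 0` -/

section point

variable (k : Type*) [Field k] {d : ℕ} (c : Fin 4 → Fin d)

/-- the rows of `A` -/
def pia (i : Fin d) : Fin d := if i = c 0 then c 2 else if i = c 1 then c 3 else i

/-- the matrix `A` -/
def A0 : Matrix (Fin d) (Fin d) k := fun i => Pi.single (pia c i) 1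

/-- the matrix `B` -/
def B0 : Matrix (Fin d) (Fin d) k := fun i =>
  if i = c 0 ∨ i = c 1 then Pi.single (c 0) 1 else
    if i = c 2 ∨ i = c 3 then Pi.single (c 1) 1 else 0

variable {k} {c}

lemma orth (hc : ∀ i, (c i).1 = i.1) (i j : Fin d) : ∑ l, A0 k c i l * B0 k c j l = 0 := by
  apply Finset.sum_eq_zero
  intro l _
  unfold A0
  by_cases h : l = pia c i
  · have h0 : pia c i ≠ c 0 := by
      unfold pia
      split_ifs with h1 h2
      · rw [Ne, Fin.ext_iff, hc, hc]; decide
      · rw [Ne, Fin.ext_iff, hc, hc]; decide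
      · exact h1
    have h1 : pia c i ≠ c 1 := by
      unfold pia
      split_ifs with h1 h2
      · rw [Ne, Fin.ext_iff, hc, hc]; decide
      · rw [Ne, Fin.ext_iff, hc, hc]; decide
      · exact h2
    have : B0 k c j l = 0 := by
      unfold B0
      rw [h]
      split_ifs
      · rw [Pi.single_eq_of_ne h0]
      · rw [Pi.single_eq_of_ne h1]
      · rfl
    rw [this, mul_zero]
  · rw [Pi.single_eq_of_ne h, zero_mul]

/-- the triangular matrix -/
def T0 (k : Type*) [Field k] {d : ℕ} (c : Fin 4 → Fin d) : Matrix (Fin d) (Fin d) k :=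
  ((A0 k c).updateCol (c 0) (Pi.single (c 0) 1)).updateCol (c 1) (Pi.single (c 1) 1)

lemma det_T0 (hc : ∀ i, (c i).1 = i.1) : (T0 k c).det = 1 := by
  have hupper : (T0 k c).BlockTriangular id := by
    intro i j hij
    simp only [id] at hij
    unfold T0
    by_cases h1 : j = c 1
    · subst h1
      rw [updateCol_self, Pi.single_eq_of_ne (ne_of_gt hij)]
    · rw [updateCol_ne h1]
      by_cases h0 : j = c 0
      · subst h0
        rw [updateCol_self, Pi.single_eq_of_ne (ne_of_gt hij)]
      · rw [updateCol_ne h0]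
        unfold A0
        rw [Pi.single_eq_of_ne]
        unfold pia
        rw [Fin.lt_def] at hij
        split_ifs with h2 h3
        · subst h2
          intro h
          rw [h, hc, hc] at hij
          revert hij; decide
        · subst h3
          intro h
          rw [h, hc, hc] at hij
          revert hij; decide
        · intro h
          rw [h] at hij
          exact lt_irrefl _ hij
  rw [det_of_isUpperTriangular hupper]
  apply Finset.prod_eq_one
  intro i _
  unfold T0
  by_cases h1 : i = c 1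
  · subst h1; simp
  · rw [updateCol_ne h1]
    by_cases h0 : i = c 0
    · subst h0; simp
    · rw [updateCol_ne h0]
      unfold A0 pia
      rw [if_neg h0, if_neg h1, Pi.single_eq_same]

lemma point_ne (hc : ∀ i, (c i).1 = i.1) :
    gg (c 0) (c 1) (c 2) (c 3) (A0 k c) (B0 k c) ≠ 0 := by
  have ne : ∀ i j : Fin 4, i ≠ j → c i ≠ c j := by
    intro i j hij h
    apply hij
    rw [Fin.ext_iff, hc, hc] at h
    exact Fin.ext h
  have b0 : B0 k c (c 0) = Pi.single (c 0) 1 := by unfold B0; rw [if_pos (Or.inl rfl)]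
  have b1 : B0 k c (c 1) = Pi.single (c 0) 1 := by unfold B0; rw [if_pos (Or.inr rfl)]
  have b2 : B0 k c (c 2) = Pi.single (c 1) 1 := by
    unfold B0
    rw [if_neg (by rintro (h | h); exacts [ne 2 0 (by decide) h, ne 2 1 (by decide) h]),
      if_pos (Or.inl rfl)]
  have b3 : B0 k c (c 3) = Pi.single (c 1) 1 := by
    unfold B0
    rw [if_neg (by rintro (h | h); exacts [ne 3 0 (by decide) h, ne 3 1 (by decide) h]),
      if_pos (Or.inr rfl)]
  have p01 : pp (c 0) (c 1) (B0 k c) (c 0) (c 1) = 0 := by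
    unfold pp
    apply det_zero_of_column_eq (ne 0 1 (by decide))
    intro i
    rw [updateCol_self, updateCol_ne (ne 0 1 (by decide)), updateCol_self, b0, b1]
  have one_upd : ((1 : Matrix (Fin d) (Fin d) k).updateCol (c 0) (Pi.single (c 0) 1)).updateCol (c 1)
      (Pi.single (c 1) 1) = 1 := by
    ext i j
    by_cases h1 : j = c 1
    · subst h1
      rw [updateCol_self, Matrix.one_apply, Pi.single_apply]
    · rw [updateCol_ne h1]
      by_cases h0 : j = c 0
      · subst h0
        rw [updateCol_self, Matrix.one_apply, Pi.single_apply]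
      · rw [updateCol_ne h0]
  have p02 : pp (c 0) (c 1) (B0 k c) (c 0) (c 2) = 1 := by
    unfold pp
    rw [b0, b2, one_upd, det_one]
  have p13 : pp (c 0) (c 1) (B0 k c) (c 1) (c 3) = 1 := by
    unfold pp
    rw [b1, b3, one_upd, det_one]
  have d01 : dd (c 0) (c 1) (A0 k c) (c 0) (c 1) = 1 := det_T0 hc
  have d23 : dd (c 0) (c 1) (A0 k c) (c 2) (c 3) ≠ 0 := by
    unfold dd
    let s : Equiv.Perm (Fin d) := Equiv.swap (c 0) (c 2) * Equiv.swap (c 1) (c 3)
    have n01 := ne 0 1 (by decide)
    have n02 := ne 0 2 (by decide)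
    have n03 := ne 0 3 (by decide)
    have n12 := ne 1 2 (by decide)
    have n13 := ne 1 3 (by decide)
    have n23 := ne 2 3 (by decide)
    have s0 : s (c 0) = c 2 := by
      simp only [s, Equiv.Perm.mul_apply]
      rw [Equiv.swap_apply_of_ne_of_ne n01 n03, Equiv.swap_apply_left]
    have s1 : s (c 1) = c 3 := by
      simp only [s, Equiv.Perm.mul_apply]
      rw [Equiv.swap_apply_left, Equiv.swap_apply_of_ne_of_ne n03.symm n23.symm]
    have s2 : s (c 2) = c 0 := by
      simp only [s, Equiv.Perm.mul_apply]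
      rw [Equiv.swap_apply_of_ne_of_ne n12.symm n23, Equiv.swap_apply_right]
    have s3 : s (c 3) = c 1 := by
      simp only [s, Equiv.Perm.mul_apply]
      rw [Equiv.swap_apply_right, Equiv.swap_apply_of_ne_of_ne n01.symm n12]
    have sx : ∀ i, i ≠ c 0 → i ≠ c 1 → i ≠ c 2 → i ≠ c 3 → s i = i := by
      intro i h0 h1 h2 h3
      simp only [s, Equiv.Perm.mul_apply]
      rw [Equiv.swap_apply_of_ne_of_ne h1 h3, Equiv.swap_apply_of_ne_of_ne h0 h2]
    have key3 : (((A0 k c).updateCol (c 0) (Pi.single (c 2) 1)).updateCol (c 1)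
        (Pi.single (c 3) 1)) = (T0 k c).submatrix s id := by
      ext i j
      rw [submatrix_apply, id]
      unfold T0
      by_cases h1 : j = c 1
      · subst h1
        rw [updateCol_self, updateCol_self, Pi.single_apply, Pi.single_apply]
        congr 1
        rw [eq_iff_iff, ← s3, s.injective.eq_iff]
      · rw [updateCol_ne h1, updateCol_ne h1]
        by_cases h0 : j = c 0
        · subst h0
          rw [updateCol_self, updateCol_self, Pi.single_apply, Pi.single_apply]
          congr 1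
          rw [eq_iff_iff, ← s2, s.injective.eq_iff]
        · rw [updateCol_ne h0, updateCol_ne h0]
          unfold A0
          congr 1
          unfold pia
          by_cases i0 : i = c 0
          · rw [if_pos i0, i0, s0, if_neg n02.symm, if_neg n12.symm]
          · rw [if_neg i0]
            by_cases i1 : i = c 1
            · rw [if_pos i1, i1, s1, if_neg n03.symm, if_neg n13.symm]
            · rw [if_neg i1]
              by_cases i2 : i = c 2
              · rw [i2, s2, if_pos rfl]
              · by_cases i3 : i = c 3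
                · rw [i3, s3, if_neg n01.symm, if_pos rfl]
                · rw [sx i i0 i1 i2 i3, if_neg i0, if_neg i1]
    rw [key3, det_permute, det_T0 hc, mul_one]
    intro h
    rcases Int.units_eq_one_or (Equiv.Perm.sign s) with h1 | h1 <;> rw [h1] at h <;> simp at h
  unfold gg
  rw [p01, p02, p13, d01]
  simpa using d23

end point

/-! ### The graph -/

/-- the graph `K_{m-1,m-1}` minus a perfect matching, with isolated vertices added -/
def G (m n : ℕ) : SimpleGraph (Fin m ⊕ Fin n) where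
  Adj x y := match x, y with
    | .inl i, .inr j => i.1 + 1 < m ∧ j.1 + 1 < m ∧ i.1 ≠ j.1
    | .inr j, .inl i => i.1 + 1 < m ∧ j.1 + 1 < m ∧ i.1 ≠ j.1
    | _, _ => False
  symm := ⟨fun x y h => by
    rcases x with x | x <;> rcases y with y | y <;> exact h⟩
  loopless := ⟨fun x h => by rcases x with x | x <;> exact h⟩

/-- the index of a vertex -/
def idx {m n : ℕ} : Fin m ⊕ Fin n → ℕ := Sum.elim (fun i => i.1) (fun j => j.1)

lemma adj_idx {m n : ℕ} {x y : Fin m ⊕ Fin n} (h : (G m n).Adj x y) :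
    idx x + 1 < m ∧ idx y + 1 < m ∧ idx x ≠ idx y ∧ x.isLeft = !y.isLeft := by
  rcases x with x | x <;> rcases y with y | y
  · exact absurd h (by simp [G])
  · obtain ⟨h1, h2, h3⟩ := h
    exact ⟨h1, h2, h3, rfl⟩
  · obtain ⟨h1, h2, h3⟩ := h
    exact ⟨h2, h1, Ne.symm h3, rfl⟩
  · exact absurd h (by simp [G])

lemma eq_of_idx {m n : ℕ} {x y : Fin m ⊕ Fin n} (h : idx x = idx y) (h' : x.isLeft = y.isLeft) :
    x = y := by
  rcases x with x | x <;> rcases y with y | y
  · exact congrArg _ (Fin.ext h)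
  · simp at h'
  · simp at h'
  · exact congrArg _ (Fin.ext h)

lemma no_biclique (m n a b : ℕ) (ha : 1 ≤ a) (hb : 1 ≤ b) (hab : m ≤ a + b)
    (hm : 1 ≤ m) : ¬ (completeBipartiteGraph (Fin a) (Fin b)).IsContained (G m n) := by
  rintro ⟨f⟩
  have hadj : ∀ x y, (G m n).Adj (f (Sum.inl x)) (f (Sum.inr y)) := fun x y =>
    f.toHom.map_rel (by simp [completeBipartiteGraph])
  let x0 : Fin a := ⟨0, ha⟩
  let y0 : Fin b := ⟨0, hb⟩
  have hlt : ∀ z, idx (f z) < m - 1 := by
    rintro (x | y)
    · have := adj_idx (hadj x y0); omega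
    · have := adj_idx (hadj x0 y); omega
  let h : Fin a ⊕ Fin b → Fin (m - 1) := fun z => ⟨idx (f z), hlt z⟩
  have hinj : Function.Injective h := by
    intro z w hzw
    have hzw' : idx (f z) = idx (f w) := congrArg Fin.val hzw
    rcases z with x | x <;> rcases w with y | y
    · have h1 := (adj_idx (hadj x y0)).2.2.2
      have h2 := (adj_idx (hadj y y0)).2.2.2
      exact f.injective (eq_of_idx hzw' (h1.trans h2.symm))
    · exact absurd hzw' (adj_idx (hadj x y)).2.2.1
    · exact absurd hzw'.symm (adj_idx (hadj y x)).2.2.1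
    · have h1 := (adj_idx (hadj x0 x)).2.2.2
      have h2 := (adj_idx (hadj x0 y)).2.2.2
      refine f.injective (eq_of_idx hzw' ?_)
      exact Bool.not_inj (h1.symm.trans h2)
  have := Fintype.card_le_of_injective h hinj
  rw [Fintype.card_sum, Fintype.card_fin, Fintype.card_fin, Fintype.card_fin] at this
  omega

lemma LSS_le_ker {k : Type*} [Field k] {m n : ℕ} (hmn : m ≤ n) {S : Type*} [CommRing S]
    (φ : MvPolynomial ((Fin m ⊕ Fin n) × Fin (m - 1)) k →+* S)
    (h : ∀ i j : Fin (m - 1), i ≠ j → ∑ l, φ (X (Sum.inl ⟨i.1, by omega⟩, l)) *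
      φ (X (Sum.inr ⟨j.1, by omega⟩, l)) = 0) : LSS k (G m n) (m - 1) ≤ RingHom.ker φ := by
  unfold LSS
  rw [Ideal.span_le]
  rintro _ ⟨x, y, hxy, rfl⟩
  rw [SetLike.mem_coe, RingHom.mem_ker, map_sum]
  simp only [map_mul]
  rcases x with x | x <;> rcases y with y | y
  · exact absurd hxy (by simp [G])
  · obtain ⟨h1, h2, h3⟩ := hxy
    exact h ⟨x.1, by omega⟩ ⟨y.1, by omega⟩ (by simpa [Fin.ext_iff] using h3)
  · obtain ⟨h1, h2, h3⟩ := hxy
    rw [← h ⟨y.1, by omega⟩ ⟨x.1, by omega⟩ (by simpa [Fin.ext_iff] using h3)]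
    exact Finset.sum_congr rfl fun l _ => mul_comm _ _
  · exact absurd hxy (by simp [G])

/-- For every field `k` and all `5 ≤ m ≤ n` there is a subgraph `G` of `K_{m,n}` which contains no
`K_{a,b}` with `a, b ≥ 1` and `a + b ≥ m`, but whose LSS ideal in dimension `m - 1` is not prime. -/
theorem result (k : Type*) [Field k] (m n : ℕ) (hm : 5 ≤ m) (hmn : m ≤ n) :
    ∃ G : SimpleGraph (Fin m ⊕ Fin n), G ≤ completeBipartiteGraph (Fin m) (Fin n) ∧
      (∀ a b : ℕ, 1 ≤ a → 1 ≤ b → m ≤ a + b →
        ¬ (completeBipartiteGraph (Fin a) (Fin b)).IsContained G) ∧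
      ¬ (LSS k G (m - 1)).IsPrime := by
  refine ⟨G m n, ?_, fun a b ha hb hab => no_biclique m n a b ha hb hab (by omega), ?_⟩
  · intro x y h
    rcases x with x | x <;> rcases y with y | y
    · exact absurd h (by simp [G])
    · simp [completeBipartiteGraph]
    · simp [completeBipartiteGraph]
    · exact absurd h (by simp [G])
  · intro hP
    let AX : Matrix (Fin (m - 1)) (Fin (m - 1)) (MvPolynomial ((Fin m ⊕ Fin n) × Fin (m - 1)) k) :=
      fun i l => X (Sum.inl ⟨i.1, by omega⟩, l)
    let BX : Matrix (Fin (m - 1)) (Fin (m - 1)) (MvPolynomial ((Fin m ⊕ Fin n) × Fin (m - 1)) k) :=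
      fun i l => X (Sum.inr ⟨i.1, by omega⟩, l)
    let c : Fin 4 → Fin (m - 1) := fun i => ⟨i.1, by omega⟩
    have hc : ∀ i, (c i).1 = i.1 := fun i => rfl
    have hc01 : c 0 ≠ c 1 := fun h => absurd (congrArg Fin.val h) (by simp [c])
    have hmem : AX.det * AX.det * gg (c 0) (c 1) (c 2) (c 3) AX BX ∈ LSS k (G m n) (m - 1) := by
      rw [← Ideal.Quotient.eq_zero_iff_mem, map_mul, map_mul, map_gg, RingHom.map_det,
        RingHom.mapMatrix_apply]
      apply key2 _ _ _ _ hc01
      intro i j hij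
      simp only [map_apply]
      simp only [← map_mul, ← map_sum]
      rw [Ideal.Quotient.eq_zero_iff_mem]
      refine Ideal.subset_span ⟨Sum.inl ⟨i.1, by omega⟩, Sum.inr ⟨j.1, by omega⟩, ?_, rfl⟩
      refine ⟨?_, ?_, ?_⟩
      · have := i.2; simp only; omega
      · have := j.2; simp only; omega
      · simpa [Fin.ext_iff] using hij
    -- evaluation at points
    let ev : Matrix (Fin (m - 1)) (Fin (m - 1)) k → Matrix (Fin (m - 1)) (Fin (m - 1)) k →
        (MvPolynomial ((Fin m ⊕ Fin n) × Fin (m - 1)) k →+* k) := fun A B =>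
      (eval fun v : (Fin m ⊕ Fin n) × Fin (m - 1) => Sum.elim
        (fun i : Fin m => if h : i.1 < m - 1 then A ⟨i.1, h⟩ v.2 else 0)
        (fun j : Fin n => if h : j.1 < m - 1 then B ⟨j.1, h⟩ v.2 else 0) v.1)
    have evA : ∀ A B, AX.map (ev A B) = A := by
      intro A B
      ext i l
      rw [map_apply]
      change eval _ (X _) = _
      rw [eval_X]
      simp [i.2]
    have evB : ∀ A B, BX.map (ev A B) = B := by
      intro A B
      ext i l
      rw [map_apply]
      change eval _ (X _) = _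
      rw [eval_X]
      simp [i.2]
    have evL : ∀ A B : Matrix (Fin (m - 1)) (Fin (m - 1)) k,
        (∀ i j, i ≠ j → ∑ l, A i l * B j l = 0) → LSS k (G m n) (m - 1) ≤ RingHom.ker (ev A B) := by
      intro A B h
      apply LSS_le_ker hmn
      intro i j hij
      rw [← h i j hij]
      refine Finset.sum_congr rfl fun l _ => ?_
      simp [ev]
    have h1 : AX.det ∉ LSS k (G m n) (m - 1) := by
      intro h
      have h2 := evL 1 0 (by intro i j _; simp) h
      rw [RingHom.mem_ker, RingHom.map_det, RingHom.mapMatrix_apply, evA, det_one] at h2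
      exact one_ne_zero h2
    have h2 : gg (c 0) (c 1) (c 2) (c 3) AX BX ∉ LSS k (G m n) (m - 1) := by
      intro h
      have h2 := evL (A0 k c) (B0 k c) (fun i j _ => orth hc i j) h
      rw [RingHom.mem_ker, map_gg, evA, evB] at h2
      exact point_ne hc h2
    rcases hP.mem_or_mem hmem with h | h
    · rcases hP.mem_or_mem h with h | h <;> exact h1 h
    · exact h2 h

end Pool.Agent.Results.MP_024e1e_ag.FailsFromFive
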